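import Mathlib

set_option autoImplicit false

open Set Topology

universe u v w

namespace Pool.Agent.H.MP_6d0d7d_lc

/-! ### Definitions -/

/-- The topology of pointwise convergence on the set of all functions `X → Y`, where `Y` is
discrete: the product topology of discrete topologies. -/
@[reducible] def pointwiseTopology (X : Type u) (Y : Type w) : TopologicalSpace (X → Y) :=
  @Pi.topologicalSpace X (fun _ => Y) (fun _ => ⊥)

/-- The topology of pointwise convergence on a permutation group `G ≤ Sym(X)`. -/
@[reducible] def groupTopology {X : Type u} (G : Subgroup (Equiv.Perm X)) : TopologicalSpace G :=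
  TopologicalSpace.induced (fun (g : G) (x : X) => (g : Equiv.Perm X) x) (pointwiseTopology X X)

/-- Extreme amenability of a permutation group `G ≤ Sym(X)`, with the topology of pointwise
convergence: each continuous action of `G` on a nonempty compact Hausdorff space has a fixed
point. -/
def ExtremelyAmenable {X : Type u} (G : Subgroup (Equiv.Perm X)) : Prop :=
  ∀ (K : Type v) [TopologicalSpace K] [CompactSpace K] [T2Space K] [Nonempty K] [MulAction G K],
    @ContinuousSMul G K _ (groupTopology G) _ → ∃ x : K, ∀ g : G, g • x = x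

/-- `H ≤ Sym(Y)` is oligomorphic: for all `n ≥ 1`, the componentwise action of `H` on `Y ^ n`
has only finitely many orbits. -/
def Oligomorphic {Y : Type w} (H : Subgroup (Equiv.Perm Y)) : Prop :=
  ∀ n : ℕ, 1 ≤ n → Finite (MulAction.orbitRel.Quotient H (Fin n → Y))

/-- `f : X → Y` is canonical with respect to `G` and `H`. -/
def Canonical {X : Type u} {Y : Type w} (G : Subgroup (Equiv.Perm X)) (H : Subgroup (Equiv.Perm Y))
    (f : X → Y) : Prop :=
  ∀ n : ℕ, 1 ≤ n → ∀ (a : Fin n → X), ∀ α ∈ G, ∃ β ∈ H, ∀ i, f (α (a i)) = β (f (a i))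

/-- The set `H f G` of all functions `β ∘ f ∘ α` with `β ∈ H`, `α ∈ G`. -/
def doubleCoset {X : Type u} {Y : Type w} (G : Subgroup (Equiv.Perm X))
    (H : Subgroup (Equiv.Perm Y)) (f : X → Y) : Set (X → Y) :=
  {g | ∃ β ∈ H, ∃ α ∈ G, g = β ∘ f ∘ α}

/-- The canonisation property of `G ≤ Sym(X)`. -/
def CanonisationProperty {X : Type u} (G : Subgroup (Equiv.Perm X)) : Prop :=
  ∀ (Y : Type w) (H : Subgroup (Equiv.Perm Y)), Oligomorphic H → ∀ f : X → Y,
    ∃ h ∈ @closure (X → Y) (pointwiseTopology X Y) (doubleCoset G H f), Canonical G H h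

end Pool.Agent.H.MP_6d0d7d_lc
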