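import Pool.Agent.H.MP_6d0d7d_lc.Defs

set_option autoImplicit false

open Set Topology

universe u v w

namespace Pool.Agent.H.MP_6d0d7d_lc

/-! ### Closure in the pointwise topology -/

lemma isOpen_cyl {X : Type u} {Y : Type w} (A : Set X) (hA : A.Finite) (h : X → Y) :
    @IsOpen (X → Y) (pointwiseTopology X Y) {g | ∀ x ∈ A, g x = h x} := by
  let iY : TopologicalSpace Y := ⊥
  have iD : DiscreteTopology Y := ⟨rfl⟩
  have : {g : X → Y | ∀ x ∈ A, g x = h x} = A.pi (fun x => {h x}) := by
    ext g; simp [Set.mem_pi]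
  show IsOpen _
  rw [this]
  exact isOpen_set_pi hA (fun x _ => isOpen_discrete _)

lemma exists_cyl {X : Type u} {Y : Type w} (U : Set (X → Y))
    (hU : @IsOpen (X → Y) (pointwiseTopology X Y) U) (h : X → Y) (hh : h ∈ U) :
    ∃ A : Finset X, ∀ g : X → Y, (∀ x ∈ A, g x = h x) → g ∈ U := by
  let iY : TopologicalSpace Y := ⊥
  have iD : DiscreteTopology Y := ⟨rfl⟩
  have hU' : IsOpen U := hU
  rw [isOpen_pi_iff] at hU'
  obtain ⟨A, u, hu, hsub⟩ := hU' h hh
  refine ⟨A, fun g hg => hsub ?_⟩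
  intro x hx
  rw [hg x hx]
  exact (hu x hx).2

lemma mem_closure_iff_cyl {X : Type u} {Y : Type w} (S : Set (X → Y)) (h : X → Y) :
    h ∈ @closure (X → Y) (pointwiseTopology X Y) S ↔
      ∀ A : Finset X, ∃ g ∈ S, ∀ x ∈ A, g x = h x := by
  let iXY : TopologicalSpace (X → Y) := pointwiseTopology X Y
  rw [mem_closure_iff]
  constructor
  · intro H A
    obtain ⟨g, hg, hgS⟩ := H _ (isOpen_cyl (A : Set X) A.finite_toSet h) (by simp)
    exact ⟨g, hgS, fun x hx => hg x (by simpa using hx)⟩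
  · intro H U hU hh
    obtain ⟨A, hA⟩ := exists_cyl U hU h hh
    obtain ⟨g, hgS, hg⟩ := H A
    exact ⟨g, hA g hg, hgS⟩

/-! ### Generic colourings -/

section Generic

variable {n : ℕ} {C : Type}

/-- Extension property of a colouring of `n`-tuples. -/
def EP {Z : Type w} (c : (Fin n → Z) → C) : Prop :=
  ∀ A : Set Z, A.Finite → ∀ q : (Fin n → Option Z) → C, ∃ y, y ∉ A ∧
    ∀ b : Fin n → Option Z, (∀ i z, b i = some z → z ∈ A) → (∃ i, b i = none) →
      c (fun i => (b i).getD y) = q b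

/-- A set of pairs is an isomorphism between parts of two colourings. -/
def PI {X : Type u} {Z : Type w} (χ : (Fin n → X) → C) (c : (Fin n → Z) → C)
    (R : Set (X × Z)) : Prop :=
  (∀ p ∈ R, ∀ q ∈ R, (p.1 = q.1 ↔ p.2 = q.2)) ∧
  ∀ w : Fin n → X × Z, (∀ i, w i ∈ R) → χ (fun i => (w i).1) = c (fun i => (w i).2)

lemma PI.forth {X : Type u} {Z : Type w} {χ : (Fin n → X) → C} {c : (Fin n → Z) → C}
    (hc : EP c) {R : Set (X × Z)} (hR : R.Finite) (hPI : PI χ c R) (x : X) :
    ∃ y, PI χ c (insert (x, y) R) := by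
  classical
  by_cases hx : ∃ p ∈ R, p.1 = x
  · obtain ⟨p, hp, rfl⟩ := hx
    refine ⟨p.2, ?_⟩
    have : insert (p.1, p.2) R = R := by simpa using hp
    rw [this]; exact hPI
  · push Not at hx
    set A : Set Z := Prod.snd '' R with hA
    set r : Z → X := fun z => if h : ∃ p ∈ R, p.2 = z then (Classical.choose h).1 else x with hr
    have hr' : ∀ p ∈ R, r p.2 = p.1 := by
      intro p hp
      have h : ∃ p' ∈ R, p'.2 = p.2 := ⟨p, hp, rfl⟩
      have h1 := Classical.choose_spec h
      simp only [hr, dif_pos h]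
      exact (hPI.1 _ h1.1 p hp).2 h1.2
    obtain ⟨y, hyA, hy⟩ := hc A (hR.image _) (fun b => χ (fun i => (b i).elim x r))
    refine ⟨y, ?_, ?_⟩
    · intro p hp q hq
      rcases hp with rfl | hp <;> rcases hq with rfl | hq
      · simp
      · constructor
        · intro h; exact absurd h.symm (hx q hq)
        · intro h; exact absurd ⟨q, hq, h.symm⟩ hyA
      · constructor
        · intro h; exact absurd h (hx p hp)
        · intro h; exact absurd ⟨p, hp, h⟩ hyA
      · exact hPI.1 p hp q hq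
    · intro w hw
      by_cases hall : ∀ i, w i ∈ R
      · exact hPI.2 w hall
      · push Not at hall
        obtain ⟨i0, hi0⟩ := hall
        have hwi0 : w i0 = (x, y) := by
          rcases hw i0 with h | h
          · exact h
          · exact absurd h hi0
        have key := hy (fun i => if w i = (x, y) then none else some (w i).2) (by
            intro i z hz
            by_cases hi : w i = (x, y)
            · simp [hi] at hz
            · simp only [hi, if_false, Option.some.injEq] at hz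
              rcases hw i with h | h
              · exact absurd h hi
              · exact ⟨w i, h, hz⟩) ⟨i0, by simp [hwi0]⟩
        have e1 : (fun i => (Option.getD (if w i = (x, y) then none else some (w i).2) y))
            = fun i => (w i).2 := by
          funext i
          by_cases hi : w i = (x, y)
          · simp [hi]
          · simp [hi]
        have e2 : (fun i => (Option.elim (if w i = (x, y) then none else some (w i).2) x r))
            = fun i => (w i).1 := by
          funext i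
          by_cases hi : w i = (x, y)
          · simp [hi]
          · simp only [hi, if_false, Option.elim]
            rcases hw i with h | h
            · exact absurd h hi
            · exact hr' _ h
        rw [e1, e2] at key
        exact key.symm


lemma PI.swap {X : Type u} {Z : Type w} {χ : (Fin n → X) → C} {c : (Fin n → Z) → C}
    {R : Set (X × Z)} (hPI : PI χ c R) : PI c χ (Prod.swap '' R) := by
  constructor
  · rintro _ ⟨p, hp, rfl⟩ _ ⟨q, hq, rfl⟩
    exact (hPI.1 p hp q hq).symm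
  · intro w hw
    have := hPI.2 (fun i => (w i).swap) (by
      intro i
      obtain ⟨p, hp, hpw⟩ := hw i
      simpa [← hpw] using hp)
    simpa using this.symm

lemma PI.back {X : Type u} {Z : Type w} {χ : (Fin n → X) → C} {c : (Fin n → Z) → C}
    (hχ : EP χ) {R : Set (X × Z)} (hR : R.Finite) (hPI : PI χ c R) (z : Z) :
    ∃ x, PI χ c (insert (x, z) R) := by
  obtain ⟨x, hx⟩ := hPI.swap.forth hχ (hR.image _) z
  refine ⟨x, ?_⟩
  have := hx.swap
  have e : Prod.swap '' (insert (z, x) (Prod.swap '' R)) = insert (x, z) R := by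
    rw [Set.image_insert_eq, ← Set.image_comp]
    simp
  rwa [e] at this

/-- Iterated extension of finite isomorphisms between parts. -/
lemma PI.generic {X : Type u} {Z : Type w} {χ : (Fin n → X) → C} {c : (Fin n → Z) → C}
    (D : ℕ → Set (X × Z) → Prop)
    (hstep : ∀ j R, R.Finite → PI χ c R → ∃ R', R ⊆ R' ∧ R'.Finite ∧ PI χ c R' ∧ D j R')
    (hmono : ∀ j R R', R ⊆ R' → D j R → D j R')
    (R₀ : Set (X × Z)) (hR₀ : R₀.Finite) (hPI : PI χ c R₀) :
    ∃ R, R₀ ⊆ R ∧ PI χ c R ∧ ∀ j, D j R := by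
  classical
  let S := {R : Set (X × Z) // R.Finite ∧ PI χ c R}
  choose! nxt h1 h2 h3 h4 using hstep
  let seq : ℕ → S := fun j => Nat.rec (motive := fun _ => S) ⟨R₀, hR₀, hPI⟩
    (fun j R => ⟨nxt j R.1, h2 j R.1 R.2.1 R.2.2, h3 j R.1 R.2.1 R.2.2⟩) j
  have hseq0 : (seq 0).1 = R₀ := rfl
  have hseqS : ∀ j, (seq (j+1)).1 = nxt j (seq j).1 := fun j => rfl
  have hmonoS : Monotone (fun j => (seq j).1) := by
    apply monotone_nat_of_le_succ
    intro j
    show (seq j).1 ⊆ (seq (j+1)).1
    rw [hseqS]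
    exact h1 j _ (seq j).2.1 (seq j).2.2
  refine ⟨⋃ j, (seq j).1, ?_, ⟨?_, ?_⟩, ?_⟩
  · rw [← hseq0]; exact Set.subset_iUnion (fun j => (seq j).1) 0
  · intro p hp q hq
    obtain ⟨j, hj⟩ := Set.mem_iUnion.1 hp
    obtain ⟨k, hk⟩ := Set.mem_iUnion.1 hq
    exact (seq (max j k)).2.2.1 p (hmonoS (le_max_left j k) hj) q (hmonoS (le_max_right j k) hk)
  · intro w hw
    have : ∀ i, ∃ j, w i ∈ (seq j).1 := fun i => Set.mem_iUnion.1 (hw i)
    choose J hJ using this
    exact (seq (Finset.univ.sup J)).2.2.2 w (fun i =>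
      hmonoS (Finset.le_sup (Finset.mem_univ i)) (hJ i))
  · intro j
    refine hmono j (seq (j+1)).1 _ (Set.subset_iUnion (fun j => (seq j).1) (j+1)) ?_
    rw [hseqS]
    exact h4 j _ (seq j).2.1 (seq j).2.2

/-- Universality: every colouring of the `n`-tuples of a countable set embeds in a colouring with
the extension property. -/
lemma EP.embed {X : Type u} [Countable X] {Z : Type w} (χ : (Fin n → X) → C)
    {c : (Fin n → Z) → C} (hc : EP c) (h0 : n ≠ 0) : ∃ f : X → Z, ∀ b, c (f ∘ b) = χ b := by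
  rcases isEmpty_or_nonempty X with hX | hX
  · have : Nonempty (Fin n) := ⟨⟨0, Nat.pos_of_ne_zero h0⟩⟩
    exact ⟨fun x => (hX.false x).elim, fun b => (hX.false (b (Classical.arbitrary _))).elim⟩
  obtain ⟨s, hs⟩ := exists_surjective_nat X
  obtain ⟨R, -, hR, hD⟩ := PI.generic (χ := χ) (c := c) (fun j R => ∃ y, (s j, y) ∈ R)
    (fun j R hRf hPI => by
      obtain ⟨y, hy⟩ := hPI.forth hc hRf (s j)
      exact ⟨_, Set.subset_insert _ _, hRf.insert _, hy, y, Set.mem_insert _ _⟩)
    (fun j R R' hRR' ⟨y, hy⟩ => ⟨y, hRR' hy⟩) ∅ Set.finite_empty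
    ⟨fun p hp => absurd hp (Set.notMem_empty p), fun w hw =>
      absurd (hw ⟨0, Nat.pos_of_ne_zero h0⟩) (Set.notMem_empty _)⟩
  have hD' : ∀ x, ∃ y, (x, y) ∈ R := by
    intro x
    obtain ⟨j, rfl⟩ := hs x
    exact hD j
  choose f hf using hD'
  exact ⟨f, fun b => (hR.2 (fun i => (b i, f (b i))) (fun i => hf _)).symm⟩

/-- The group of all permutations preserving a colouring. -/
def autGroup {Z : Type w} (c : (Fin n → Z) → C) : Subgroup (Equiv.Perm Z) where
  carrier := {σ | ∀ b : Fin n → Z, c (fun i => σ (b i)) = c b}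
  mul_mem' := by
    intro σ τ hσ hτ b
    simp only [Equiv.Perm.mul_apply]
    rw [hσ (fun i => τ (b i)), hτ b]
  one_mem' := by intro b; rfl
  inv_mem' := by
    intro σ hσ b
    have := hσ (fun i => σ⁻¹ (b i))
    simpa using this.symm

/-- Homogeneity. -/
lemma EP.homogeneous {Z : Type w} [Countable Z] [Nonempty Z] {c : (Fin n → Z) → C} (hc : EP c)
    {m : ℕ} (a b : Fin m → Z) (hab : ∀ i j, a i = a j ↔ b i = b j)
    (hcab : ∀ w : Fin n → Fin m, c (a ∘ w) = c (b ∘ w)) :
    ∃ σ ∈ autGroup c, ∀ i, σ (a i) = b i := by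
  obtain ⟨s, hs⟩ := exists_surjective_nat Z
  obtain ⟨R, hR0, hR, hD⟩ := PI.generic (χ := c) (c := c)
    (fun j R => (∃ y, (s j, y) ∈ R) ∧ (∃ x, (x, s j) ∈ R))
    (fun j R hRf hPI => by
      obtain ⟨y, hy⟩ := hPI.forth hc hRf (s j)
      obtain ⟨x, hx⟩ := hy.back hc (hRf.insert _) (s j)
      exact ⟨_, (Set.subset_insert _ _).trans (Set.subset_insert _ _), (hRf.insert _).insert _,
        hx, ⟨y, Set.mem_insert_of_mem _ (Set.mem_insert _ _)⟩, ⟨x, Set.mem_insert _ _⟩⟩)
    (fun j R R' hRR' ⟨⟨y, hy⟩, ⟨x, hx⟩⟩ => ⟨⟨y, hRR' hy⟩, ⟨x, hRR' hx⟩⟩)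
    (Set.range (fun i => (a i, b i))) (Set.finite_range _)
    ⟨by
      rintro _ ⟨i, rfl⟩ _ ⟨j, rfl⟩
      exact hab i j, by
      intro w hw
      choose k hk using hw
      have h1 : (fun i => (w i).1) = a ∘ k := by funext i; simp [← hk i]
      have h2 : (fun i => (w i).2) = b ∘ k := by funext i; simp [← hk i]
      rw [h1, h2]; exact hcab k⟩
  have hL : ∀ x, ∃ y, (x, y) ∈ R := by
    intro x; obtain ⟨j, rfl⟩ := hs x; exact (hD j).1
  have hRr : ∀ y, ∃ x, (x, y) ∈ R := by
    intro x; obtain ⟨j, rfl⟩ := hs x; exact (hD j).2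
  choose f hf using hL
  choose g hg using hRr
  let σ : Equiv.Perm Z :=
    { toFun := f
      invFun := g
      left_inv := fun x => ((hR.1 _ (hg (f x)) _ (hf x)).2 rfl)
      right_inv := fun y => ((hR.1 _ (hf (g y)) _ (hg y)).1 rfl) }
  refine ⟨σ, ?_, ?_⟩
  · intro w
    exact (hR.2 (fun i => (w i, f (w i))) (fun i => hf _)).symm
  · intro i
    have h1 : (a i, b i) ∈ R := hR0 ⟨i, rfl⟩
    exact (hR.1 _ (hf (a i)) _ h1).1 rfl

lemma EP.oligomorphic {Z : Type w} [Countable Z] [Nonempty Z] [Finite C] {c : (Fin n → Z) → C}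
    (hc : EP c) : Oligomorphic (autGroup c) := by
  intro m _
  let Φ : (Fin m → Z) → (Fin m → Fin m → Prop) × ((Fin n → Fin m) → C) :=
    fun a => (fun i j => a i = a j, fun w => c (a ∘ w))
  refine Finite.of_injective
    (fun q : MulAction.orbitRel.Quotient (autGroup c) (Fin m → Z) => Φ (Quotient.out q)) ?_
  intro q q' h
  have h1 : ∀ i j, (Quotient.out q) i = (Quotient.out q) j ↔
      (Quotient.out q') i = (Quotient.out q') j := by
    intro i j
    have := congrFun (congrFun (congrArg Prod.fst h) i) j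
    exact iff_of_eq this
  have h2 : ∀ w : Fin n → Fin m, c ((Quotient.out q) ∘ w) = c ((Quotient.out q') ∘ w) := by
    intro w
    exact congrFun (congrArg Prod.snd h) w
  obtain ⟨σ, hσ, hσ'⟩ := hc.homogeneous (Quotient.out q) (Quotient.out q') h1 h2
  rw [← Quotient.out_eq q, ← Quotient.out_eq q']
  apply Quotient.sound
  symm
  refine ⟨⟨σ, hσ⟩, ?_⟩
  funext i
  exact hσ' i


/-- Existence of a colouring of the `n`-tuples of `ℕ` with the extension property. -/
lemma exists_EP_nat (n k : ℕ) : ∃ c : (Fin n → ℕ) → Fin (k + 1), EP c := by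
  classical
  obtain ⟨e, he⟩ := exists_surjective_nat ((Fin n → Option ℕ) →₀ Fin (k + 1))
  refine ⟨fun b => e (Nat.unpair (Finset.univ.sup b)).1
    (fun i => if b i = Finset.univ.sup b then none else some (b i)), ?_⟩
  intro A hA q
  have hS : ({b : Fin n → Option ℕ | ∀ i, b i ∈ insert none (some '' A)}).Finite :=
    Set.Finite.pi' (fun _ => (hA.image _).insert _)
  obtain ⟨j, hj⟩ := he (Finsupp.onFinset hS.toFinset
    (fun b => if b ∈ hS.toFinset then q b else 0) (by
      intro b hb
      by_contra h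
      exact hb (if_neg h)))
  obtain ⟨M, hM⟩ := hA.bddAbove
  have hMy : M + 1 ≤ Nat.pair j (M + 1) := Nat.right_le_pair _ _
  refine ⟨Nat.pair j (M + 1), ?_, ?_⟩
  · intro h
    have := hM h
    omega
  · intro b hb ⟨i0, hi0⟩
    have hlt : ∀ i z, b i = some z → z < Nat.pair j (M + 1) := by
      intro i z hz
      have := hM (hb i z hz)
      omega
    have hsup : (Finset.univ.sup fun i => (b i).getD (Nat.pair j (M + 1))) =
        Nat.pair j (M + 1) := by
      apply le_antisymm
      · apply Finset.sup_le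
        intro i _
        rcases h : b i with _ | z
        · simp
        · simpa using (hlt i z h).le
      · have := Finset.le_sup (f := fun i => (b i).getD (Nat.pair j (M + 1)))
          (Finset.mem_univ i0)
        simpa [hi0] using this
    have hfun : (fun i => if (b i).getD (Nat.pair j (M + 1)) = Nat.pair j (M + 1) then none
        else some ((b i).getD (Nat.pair j (M + 1)))) = b := by
      funext i
      rcases h : b i with _ | z
      · simp
      · simp [(hlt i z h).ne]
    have hmem : b ∈ hS.toFinset := by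
      rw [Set.Finite.mem_toFinset]
      intro i
      rcases h : b i with _ | z
      · exact Set.mem_insert _ _
      · exact Set.mem_insert_of_mem _ ⟨z, hb i z h, rfl⟩
    simp only [hsup, Nat.unpair_pair, hj, hfun]
    rw [Finsupp.onFinset_apply, if_pos hmem]

lemma exists_EP (n k : ℕ) : ∃ c : (Fin n → ULift.{w} ℕ) → Fin (k + 1), EP c := by
  obtain ⟨c, hc⟩ := exists_EP_nat n k
  refine ⟨fun b => c (fun i => (b i).down), ?_⟩
  intro A hA q
  obtain ⟨y, hy, hy'⟩ := hc (ULift.down '' A) (hA.image _) (fun b => q (fun i => (b i).map ULift.up))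
  refine ⟨⟨y⟩, fun h => hy ⟨_, h, rfl⟩, ?_⟩
  intro b hb ⟨i0, hi0⟩
  have := hy' (fun i => (b i).map ULift.down) (by
    intro i z hz
    rw [Option.map_eq_some_iff] at hz
    obtain ⟨z', hz', rfl⟩ := hz
    exact ⟨z', hb i z' hz', rfl⟩) ⟨i0, by simp [hi0]⟩
  have e1 : (fun i => ((b i).getD (⟨y⟩ : ULift.{w} ℕ)).down) =
      fun i => ((b i).map ULift.down).getD y := by
    funext i
    rcases b i with _ | z <;> simp
  have e2 : (fun i => ((b i).map ULift.down).map ULift.up) = b := by
    funext i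
    rcases b i with _ | z <;> simp
  simp only [e1, this]
  rw [e2]

end Generic

/-! ### From canonisation to the Ramsey property -/

lemma ramsey {X : Type u} [Countable X] {G : Subgroup (Equiv.Perm X)}
    (hG : CanonisationProperty.{u, w} G) {n k : ℕ} (χ : (Fin n → X) → Fin (k + 1))
    (a : Fin n → X) (F : Set (Equiv.Perm X)) (hF : F.Finite) (hFG : ∀ g ∈ F, g ∈ G) :
    ∃ α ∈ G, ∃ col, ∀ g ∈ F, χ (fun i => α (g (a i))) = col := by
  classical
  rcases Nat.eq_zero_or_pos n with rfl | hn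
  · exact ⟨1, G.one_mem, χ a, fun g _ => congrArg χ (Subsingleton.elim _ _)⟩
  obtain ⟨c, hc⟩ := exists_EP.{w} n k
  obtain ⟨f, hf⟩ := hc.embed χ (Nat.pos_iff_ne_zero.1 hn)
  obtain ⟨h, hcl, hcan⟩ := hG (ULift.{w} ℕ) (autGroup c) hc.oligomorphic f
  rw [mem_closure_iff_cyl] at hcl
  have hAfin : (⋃ g ∈ F, Set.range (fun i => g (a i))).Finite :=
    hF.biUnion (fun g _ => Set.finite_range _)
  obtain ⟨g', ⟨β, hβ, α, hα, rfl⟩, hg'⟩ := hcl hAfin.toFinset
  refine ⟨α, hα, c (fun i => h (a i)), ?_⟩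
  intro g hg
  have h1 : ∀ i, β (f (α (g (a i)))) = h (g (a i)) := by
    intro i
    apply hg'
    rw [Set.Finite.mem_toFinset]
    exact Set.mem_biUnion hg ⟨i, rfl⟩
  have h2 := hf (fun i => α (g (a i)))
  rw [← h2]
  have h3 : c (f ∘ fun i => α (g (a i))) = c (fun i => β (f (α (g (a i))))) :=
    (hβ (f ∘ fun i => α (g (a i)))).symm
  rw [h3]
  simp only [h1]
  obtain ⟨β', hβ', hβ''⟩ := hcan n hn a g (hFG g hg)
  simp only [hβ'']
  exact hβ' _

/-! ### From the Ramsey property to extreme amenability -/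

open Uniformity in
lemma stab_uniform {X : Type u} {G : Subgroup (Equiv.Perm X)} (K : Type v) [UniformSpace K]
    [CompactSpace K] [MulAction G K] (hc : @ContinuousSMul G K _ (groupTopology G) _)
    (V : Set (K × K)) (hV : V ∈ 𝓤 K) :
    ∃ A : Finset X, ∀ g : G, (∀ x ∈ A, (g : Equiv.Perm X) x = x) → ∀ z : K, (g • z, z) ∈ V := by
  let iG : TopologicalSpace G := groupTopology G
  have hcont : Continuous (fun p : G × K => ((p.1 • p.2, p.2) : K × K)) :=
    (hc.continuous_smul).prodMk continuous_snd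
  have hint : interior V ∈ 𝓤 K := interior_mem_uniformity hV
  have hO : IsOpen ((fun p : G × K => ((p.1 • p.2, p.2) : K × K)) ⁻¹' (interior V)) :=
    isOpen_interior.preimage hcont
  have hsub : ({(1 : G)} : Set G) ×ˢ (Set.univ : Set K) ⊆
      (fun p : G × K => ((p.1 • p.2, p.2) : K × K)) ⁻¹' (interior V) := by
    rintro ⟨g, z⟩ ⟨hg, -⟩
    simp only [Set.mem_singleton_iff] at hg
    subst hg
    simp only [Set.mem_preimage, one_smul]
    exact refl_mem_uniformity hint
  obtain ⟨u, v, hu, -, h1u, hv, huv⟩ := generalized_tube_lemma isCompact_singleton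
    isCompact_univ hO hsub
  have hu' : @IsOpen G (groupTopology G) u := hu
  obtain ⟨U', hU', hUu⟩ := hu'
  have h1U : (fun x : X => ((1 : G) : Equiv.Perm X) x) ∈ U' := by
    have : (1 : G) ∈ u := h1u rfl
    rw [← hUu] at this
    exact this
  obtain ⟨A, hA⟩ := exists_cyl U' hU' _ h1U
  refine ⟨A, fun g hg z => ?_⟩
  have hgu : g ∈ u := by
    rw [← hUu]
    exact hA _ (fun x hx => by simpa using hg x hx)
  exact interior_subset (huv (Set.mk_mem_prod hgu (hv (Set.mem_univ z))))

open Uniformity in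
lemma ea_of_ramsey {X : Type u} {G : Subgroup (Equiv.Perm X)}
    (hR : ∀ (n k : ℕ) (χ : (Fin n → X) → Fin (k + 1)) (a : Fin n → X) (F : Set (Equiv.Perm X)),
      F.Finite → (∀ g ∈ F, g ∈ G) → ∃ α ∈ G, ∃ col, ∀ g ∈ F, χ (fun i => α (g (a i))) = col) :
    ExtremelyAmenable.{u, v} G := by
  classical
  intro K _ _ _ _ _ hc
  let iK : UniformSpace K := uniformSpaceOfCompactR1
  have hne : Nonempty K := inferInstance
  obtain ⟨x0⟩ := hne
  -- the main approximation step
  have key : ∀ U ∈ 𝓤 K, ∀ F : Set G, F.Finite → ∃ x : K, ∀ g ∈ F, (x, g • x) ∈ U := by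
    intro U hU F hF
    obtain ⟨W, hW, hWs, hWU⟩ := comp_symm_mem_uniformity_sets hU
    obtain ⟨V, hV, hVs, hVW⟩ := comp_symm_mem_uniformity_sets hW
    obtain ⟨A, hA⟩ := stab_uniform (G := G) K hc V hV
    obtain ⟨t, htf, ht⟩ := (isCompact_univ (X := K)).totallyBounded V hV
    have hcov : ∀ z : K, ∃ y : t, (z, (y : K)) ∈ V := by
      intro z
      have := ht (Set.mem_univ z)
      simp only [Set.mem_iUnion, Set.mem_ofPred_eq] at this
      obtain ⟨y, hy, hzy⟩ := this
      exact ⟨⟨y, hy⟩, hzy⟩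
    choose cidx hcidx using hcov
    have : Fintype t := htf.fintype
    let ι : t → Fin (Fintype.card t + 1) := fun y => Fin.castSucc (Fintype.equivFin t y)
    have hι : Function.Injective ι := fun y y' h =>
      (Fintype.equivFin t).injective (Fin.castSucc_injective _ h)
    let e := A.equivFin
    let a : Fin A.card → X := fun i => (e.symm i : X)
    let ψ : (Fin A.card → X) → K := fun b =>
      if hb : ∃ g : G, ∀ i, (g : Equiv.Perm X) (b i) = a i then (Classical.choose hb) • x0 else x0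
    let F' : Set (Equiv.Perm X) := (fun g : G => ((g⁻¹ : G) : Equiv.Perm X)) '' (insert 1 F)
    obtain ⟨α, hα, col, hcol⟩ := hR A.card (Fintype.card t) (fun b => ι (cidx (ψ b))) a F'
      ((hF.insert _).image _) (by
        rintro _ ⟨g, -, rfl⟩
        exact (g⁻¹ : G).2)
    let αG : G := ⟨α, hα⟩
    -- closeness
    have hclose : ∀ g ∈ insert 1 F, ((g * αG⁻¹) • x0,
        ψ (fun i => α (((g⁻¹ : G) : Equiv.Perm X) (a i)))) ∈ V := by
      intro g _
      have hb : ∃ g' : G, ∀ i, (g' : Equiv.Perm X)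
          ((fun i => α (((g⁻¹ : G) : Equiv.Perm X) (a i))) i) = a i := by
        refine ⟨g * αG⁻¹, fun i => ?_⟩
        simp [αG]
      have hψ : ψ (fun i => α (((g⁻¹ : G) : Equiv.Perm X) (a i))) = (Classical.choose hb) • x0 := by
        simp only [ψ]
        rw [dif_pos hb]
      have hspec := Classical.choose_spec hb
      rw [hψ]
      set g' := Classical.choose hb with hg'
      have h1 := hA ((g * αG⁻¹) * g'⁻¹) (by
        intro x hx
        have hx' : ∃ i, a i = x := ⟨e ⟨x, hx⟩, by simp [a]⟩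
        obtain ⟨i, rfl⟩ := hx'
        have h2 : (g' : Equiv.Perm X)⁻¹ (a i) = α ((g : Equiv.Perm X)⁻¹ (a i)) := by
          rw [Equiv.Perm.inv_eq_iff_eq]
          exact (hspec i).symm
        simp only [Subgroup.coe_mul, Subgroup.coe_inv, Equiv.Perm.mul_apply, h2]
        simp [αG]) (g' • x0)
      rw [← mul_smul, inv_mul_cancel_right] at h1
      exact h1
    have hcol1 := hcol _ ⟨1, Set.mem_insert _ _, rfl⟩
    refine ⟨αG⁻¹ • x0, fun g hg => ?_⟩
    have hcolg := hcol _ ⟨g, Set.mem_insert_of_mem _ hg, rfl⟩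
    have hy := hι (hcol1.trans hcolg.symm)
    have c1 := hclose 1 (Set.mem_insert _ _)
    have cg := hclose g (Set.mem_insert_of_mem _ hg)
    have d1 := hcidx (ψ (fun i => α ((((1 : G)⁻¹ : G) : Equiv.Perm X) (a i))))
    have dg := hcidx (ψ (fun i => α (((g⁻¹ : G) : Equiv.Perm X) (a i))))
    rw [← hy] at dg
    rw [one_mul] at c1
    have e1 : (αG⁻¹ • x0, _) ∈ W := hVW ⟨_, c1, d1⟩
    have eg : ((g * αG⁻¹) • x0, _) ∈ W := hVW ⟨_, cg, dg⟩
    rw [mul_smul] at eg
    exact hWU ⟨_, e1, hWs.symm _ _ eg⟩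
  -- compactness
  let I := {U : Set (K × K) // U ∈ 𝓤 K ∧ IsClosed U}
  have hcl : ∀ i : G × I, IsClosed {x : K | (x, i.1 • x) ∈ i.2.1} := by
    intro i
    let iG : TopologicalSpace G := groupTopology G
    have : Continuous (fun x : K => ((x, i.1 • x) : K × K)) :=
      continuous_id.prodMk (hc.continuous_smul.comp (Continuous.prodMk_right i.1))
    exact i.2.2.2.preimage this
  obtain ⟨x, -, hx⟩ := isCompact_univ.inter_iInter_nonempty
    (fun i : G × I => {x : K | (x, i.1 • x) ∈ i.2.1}) hcl (by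
      intro T
      obtain ⟨x, hx⟩ := key (⋂ i ∈ T, (i.2.1 : Set (K × K)))
        ((Filter.biInter_finset_mem T).2 (fun i _ => i.2.2.1))
        ((fun i : G × I => i.1) '' (T : Set (G × I))) (T.finite_toSet.image _)
      refine ⟨x, Set.mem_univ _, ?_⟩
      simp only [Set.mem_iInter]
      intro i hi
      have := hx i.1 ⟨i, hi, rfl⟩
      simp only [Set.mem_iInter] at this
      exact this i hi)
  simp only [Set.mem_iInter, Set.mem_ofPred_eq] at hx
  refine ⟨x, fun g => ?_⟩
  symm
  refine eq_of_uniformity_basis uniformity_hasBasis_closed ?_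
  intro U hU
  exact hx (g, ⟨U, hU⟩)

/-! ### From extreme amenability to canonisation -/

universe v'

lemma ExtremelyAmenable.fixed {X : Type u} {G : Subgroup (Equiv.Perm X)}
    (hG : ExtremelyAmenable.{u, v} G) (K : Type v') [Small.{v} K] [TopologicalSpace K]
    [CompactSpace K] [T2Space K] [Nonempty K] [MulAction G K]
    (hc : @ContinuousSMul G K _ (groupTopology G) _) : ∃ x : K, ∀ g : G, g • x = x := by
  let e : K ≃ₜ Shrink.{v} K := Shrink.homeomorph K
  have : CompactSpace (Shrink.{v} K) := e.compactSpace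
  have : T2Space (Shrink.{v} K) := e.t2Space
  have : Nonempty (Shrink.{v} K) := ⟨e (Classical.arbitrary K)⟩
  have hsm : ∀ (g : G) (y : Shrink.{v} K), g • y = e (g • e.symm y) := fun g y => rfl
  obtain ⟨y, hy⟩ := hG (Shrink.{v} K) (by
    let iG : TopologicalSpace G := groupTopology G
    refine ⟨?_⟩
    have h1 : Continuous (fun p : G × Shrink.{v} K => e (p.1 • e.symm p.2)) :=
      e.continuous.comp (hc.continuous_smul.comp
        (continuous_fst.prodMk (e.symm.continuous.comp continuous_snd)))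
    exact h1)
  refine ⟨e.symm y, fun g => ?_⟩
  have := hy g
  rw [hsm] at this
  exact e.injective (by rw [this, e.apply_symm_apply])

section Forward

variable {X : Type u} {Y : Type w} (G : Subgroup (Equiv.Perm X)) (H : Subgroup (Equiv.Perm Y))

/-- The space of all assignments of `H`-orbits to finite tuples of `X`. -/
def TS (X : Type u) {Y : Type w} (H : Subgroup (Equiv.Perm Y)) : Type (max u w) :=
  (n : ℕ) → (Fin n → X) → MulAction.orbitRel.Quotient H (Fin n → Y)

instance (n : ℕ) : TopologicalSpace (MulAction.orbitRel.Quotient H (Fin n → Y)) := ⊥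

instance (n : ℕ) : DiscreteTopology (MulAction.orbitRel.Quotient H (Fin n → Y)) := ⟨rfl⟩

instance : TopologicalSpace (TS X H) :=
  inferInstanceAs (TopologicalSpace
    ((n : ℕ) → (Fin n → X) → MulAction.orbitRel.Quotient H (Fin n → Y)))

instance : T2Space (TS X H) :=
  inferInstanceAs (T2Space
    ((n : ℕ) → (Fin n → X) → MulAction.orbitRel.Quotient H (Fin n → Y)))

lemma orbQuot_finite {H : Subgroup (Equiv.Perm Y)} (hH : Oligomorphic H) (n : ℕ) :
    Finite (MulAction.orbitRel.Quotient H (Fin n → Y)) := by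
  rcases Nat.eq_zero_or_pos n with rfl | hn
  · exact Quotient.finite _
  · exact hH n hn

lemma TS_compact {H : Subgroup (Equiv.Perm Y)} (hH : Oligomorphic H) : CompactSpace (TS X H) := by
  have := orbQuot_finite hH
  exact inferInstanceAs (CompactSpace
    ((n : ℕ) → (Fin n → X) → MulAction.orbitRel.Quotient H (Fin n → Y)))

lemma TS_small [Countable X] {H : Subgroup (Equiv.Perm Y)} (hH : Oligomorphic H) :
    Small.{v} (TS X H) := by
  have := orbQuot_finite hH
  have h1 : Small.{v} X := Countable.toSmall X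
  exact inferInstanceAs (Small.{v}
    ((n : ℕ) → (Fin n → X) → MulAction.orbitRel.Quotient H (Fin n → Y)))

instance : MulAction G (TS X H) where
  smul g τ := fun n a => τ n (fun i => (g : Equiv.Perm X)⁻¹ (a i))
  one_smul τ := by
    funext n a
    show τ n (fun i => ((1 : G) : Equiv.Perm X)⁻¹ (a i)) = τ n a
    simp
  mul_smul g g' τ := by
    funext n a
    show τ n (fun i => ((g * g' : G) : Equiv.Perm X)⁻¹ (a i)) =
      τ n (fun i => (g' : Equiv.Perm X)⁻¹ ((g : Equiv.Perm X)⁻¹ (a i)))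
    simp [mul_inv_rev]

lemma TS_smul_apply (g : G) (τ : TS X H) (n : ℕ) (a : Fin n → X) :
    (g • τ) n a = τ n (fun i => (g : Equiv.Perm X)⁻¹ (a i)) := rfl

lemma TS_eval_continuous (n : ℕ) (a : Fin n → X) : Continuous (fun τ : TS X H => τ n a) := by
  have h : Continuous (fun τ : ((n : ℕ) → (Fin n → X) →
      MulAction.orbitRel.Quotient H (Fin n → Y)) => τ n a) :=
    (continuous_apply a).comp (continuous_apply n)
  exact h

lemma TS_continuousSMul : @ContinuousSMul G (TS X H) _ (groupTopology G) _ := by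
  let iG : TopologicalSpace G := groupTopology G
  refine ⟨?_⟩
  refine continuous_pi (fun n => continuous_pi (fun a => ?_))
  apply IsLocallyConstant.continuous
  rw [IsLocallyConstant.iff_eventually_eq]
  rintro ⟨g0, τ0⟩
  have hU : @IsOpen G (groupTopology G)
      {g | ∀ i, (g : Equiv.Perm X) ((g0 : Equiv.Perm X)⁻¹ (a i)) = a i} := by
    refine ⟨{h : X → X | ∀ x ∈ Set.range (fun i => (g0 : Equiv.Perm X)⁻¹ (a i)),
      h x = (g0 : Equiv.Perm X) x}, isOpen_cyl _ (Set.finite_range _) _, ?_⟩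
    ext g
    simp
  have hV : IsOpen {τ : TS X H | τ n (fun i => (g0 : Equiv.Perm X)⁻¹ (a i)) =
      τ0 n (fun i => (g0 : Equiv.Perm X)⁻¹ (a i))} :=
    (isOpen_discrete {τ0 n (fun i => (g0 : Equiv.Perm X)⁻¹ (a i))}).preimage
      (TS_eval_continuous H n _)
  have hUV := prod_mem_nhds (hU.mem_nhds (x := g0) (by simp)) (hV.mem_nhds (x := τ0) rfl)
  filter_upwards [hUV]
  rintro ⟨g, τ⟩ ⟨hg, hτ⟩
  show τ n (fun i => (g : Equiv.Perm X)⁻¹ (a i)) = τ0 n (fun i => (g0 : Equiv.Perm X)⁻¹ (a i))
  have : (fun i => (g : Equiv.Perm X)⁻¹ (a i)) = (fun i => (g0 : Equiv.Perm X)⁻¹ (a i)) := by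
    funext i
    rw [Equiv.Perm.inv_eq_iff_eq]
    exact (hg i).symm
  rw [this]
  exact hτ

lemma orbQuot_eq {n : ℕ} (a b : Fin n → Y)
    (h : (Quotient.mk'' a : MulAction.orbitRel.Quotient H (Fin n → Y)) = Quotient.mk'' b) :
    ∃ β ∈ H, ∀ i, a i = β (b i) := by
  have h' := Quotient.exact h
  obtain ⟨β, hβ⟩ := h'
  exact ⟨β, β.2, fun i => (congrFun hβ i).symm⟩

lemma orbQuot_mk {n : ℕ} (a b : Fin n → Y) (β : Equiv.Perm Y) (hβ : β ∈ H)
    (h : ∀ i, a i = β (b i)) :
    (Quotient.mk'' a : MulAction.orbitRel.Quotient H (Fin n → Y)) = Quotient.mk'' b := by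
  apply Quotient.sound
  exact ⟨⟨β, hβ⟩, funext fun i => (h i).symm⟩

/-- The point of the type space given by a function `f : X → Y`. -/
def TSpoint (f : X → Y) : TS X H := fun _ a => Quotient.mk'' (f ∘ a)

/-- The closure of the `G`-orbit of the point given by `f`. -/
def TSorb (f : X → Y) : Set (TS X H) := closure (Set.range (fun g : G => g • TSpoint H f))

lemma TSorb_smul {f : X → Y} (g : G) {τ : TS X H} (hτ : τ ∈ TSorb G H f) :
    g • τ ∈ TSorb G H f := by
  let iG : TopologicalSpace G := groupTopology G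
  have hcont : Continuous (fun τ : TS X H => g • τ) :=
    (TS_continuousSMul G H).continuous_smul.comp (Continuous.prodMk_right g)
  refine map_mem_closure hcont hτ ?_
  rintro _ ⟨g', rfl⟩
  exact ⟨g * g', mul_smul g g' _⟩

lemma TSorb_approx {f : X → Y} {τ : TS X H} (hτ : τ ∈ TSorb G H f) {n n' : ℕ} (a : Fin n → X)
    (a' : Fin n' → X) : ∃ g ∈ G, τ n a = Quotient.mk'' (fun i => f (g (a i))) ∧
      τ n' a' = Quotient.mk'' (fun i => f (g (a' i))) := by
  have hV : IsOpen ({τ' : TS X H | τ' n a = τ n a} ∩ {τ' : TS X H | τ' n' a' = τ n' a'}) :=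
    ((isOpen_discrete {τ n a}).preimage (TS_eval_continuous H n a)).inter
      ((isOpen_discrete {τ n' a'}).preimage (TS_eval_continuous H n' a'))
  obtain ⟨_, ⟨h1, h2⟩, ⟨g, rfl⟩⟩ := mem_closure_iff.1 hτ _ hV ⟨rfl, rfl⟩
  exact ⟨(g : Equiv.Perm X)⁻¹, G.inv_mem g.2, h1.symm, h2.symm⟩

lemma TSorb_fixed [Countable X] {G : Subgroup (Equiv.Perm X)} (hG : ExtremelyAmenable.{u, v} G)
    {H : Subgroup (Equiv.Perm Y)} (hH : Oligomorphic H) (f : X → Y) :
    ∃ τ ∈ TSorb G H f, ∀ g : G, g • τ = τ := by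
  have i1 : CompactSpace (TS X H) := TS_compact hH
  have i2 : Small.{v} (TS X H) := TS_small hH
  have i3 : CompactSpace (TSorb G H f) := isCompact_iff_compactSpace.1 isClosed_closure.isCompact
  have i4 : Nonempty (TSorb G H f) := ⟨⟨(1 : G) • TSpoint H f, subset_closure ⟨1, rfl⟩⟩⟩
  let i5 : MulAction G (TSorb G H f) :=
    { smul := fun g τ => ⟨g • τ.1, TSorb_smul G H g τ.2⟩
      one_smul := fun τ => Subtype.ext (one_smul G τ.1)
      mul_smul := fun g g' τ => Subtype.ext (mul_smul g g' τ.1) }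
  have hsm : ∀ (g : G) (τ : TSorb G H f), ((g • τ : TSorb G H f) : TS X H) = g • (τ : TS X H) :=
    fun g τ => rfl
  obtain ⟨τ, hτ⟩ := hG.fixed (TSorb G H f) (by
    let iG : TopologicalSpace G := groupTopology G
    refine ⟨?_⟩
    apply Continuous.subtype_mk
    exact (TS_continuousSMul G H).continuous_smul.comp
      (continuous_fst.prodMk (continuous_subtype_val.comp continuous_snd)))
  refine ⟨τ, τ.2, fun g => ?_⟩
  rw [← hsm, hτ]

lemma canonisation_of_ea [Countable X] {G : Subgroup (Equiv.Perm X)}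
    (hG : ExtremelyAmenable.{u, v} G) {H : Subgroup (Equiv.Perm Y)} (hH : Oligomorphic H)
    (f : X → Y) :
    ∃ h ∈ @closure (X → Y) (pointwiseTopology X Y) (doubleCoset G H f), Canonical G H h := by
  classical
  rcases isEmpty_or_nonempty X with hX | hX
  · refine ⟨f, (mem_closure_iff_cyl _ _).2 (fun A => ⟨f, ⟨1, H.one_mem, 1, G.one_mem, rfl⟩,
      fun _ _ => rfl⟩), fun n hn a => (hX.false (a ⟨0, hn⟩)).elim⟩
  obtain ⟨s, hs⟩ := exists_surjective_nat X
  obtain ⟨τ, hτ, hfix⟩ := TSorb_fixed hG hH f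
  -- the property maintained in the recursive construction
  let Q : ℕ → (ℕ → Y) → Prop := fun m y =>
    τ m (fun i => s i) = Quotient.mk'' (fun i : Fin m => y i)
  have hstep : ∀ m y, Q m y → ∃ y', Q (m + 1) y' ∧ ∀ i < m, y' i = y i := by
    intro m y hy
    obtain ⟨g, hg, h1, h2⟩ := TSorb_approx G H hτ (fun i : Fin m => s i)
      (fun i : Fin (m + 1) => s i)
    have hy' : τ m (fun i : Fin m => s i) = (Quotient.mk'' (fun i : Fin m => y i) :
        MulAction.orbitRel.Quotient H (Fin m → Y)) := hy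
    have h3 : (Quotient.mk'' (fun i : Fin m => y i) :
        MulAction.orbitRel.Quotient H (Fin m → Y)) =
        Quotient.mk'' (fun i : Fin m => f (g (s i))) := by
      rw [← hy', h1]
    obtain ⟨β, hβ, hβ'⟩ := orbQuot_eq H _ _ h3
    refine ⟨fun i => β (f (g (s i))), ?_, fun i hi => (hβ' ⟨i, hi⟩).symm⟩
    show τ (m + 1) (fun i => s i) = _
    rw [h2]
    exact (orbQuot_mk H _ _ β hβ (fun i => rfl)).symm
  have hQ0 : Q 0 (fun _ => f (s 0)) := by
    obtain ⟨g, hg, h1, -⟩ := TSorb_approx G H hτ (fun i : Fin 0 => s i) (fun i : Fin 0 => s i)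
    show τ 0 _ = _
    rw [h1]
    congr 1
    exact Subsingleton.elim _ _
  choose! nxt hn1 hn2 using hstep
  let seq : ℕ → ℕ → Y := fun m => Nat.rec (motive := fun _ => ℕ → Y) (fun _ => f (s 0))
    (fun m y => nxt m y) m
  have hseqS : ∀ m, seq (m + 1) = nxt m (seq m) := fun m => rfl
  have hseqQ : ∀ m, Q m (seq m) := by
    intro m
    induction m with
    | zero => exact hQ0
    | succ m ih => rw [hseqS]; exact hn1 m _ ih
  have hstab : ∀ i m, i < m → seq m i = seq (i + 1) i := by
    intro i m him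
    induction m, him using Nat.le_induction with
    | base => rfl
    | succ m hm ih => rw [hseqS, hn2 m _ (hseqQ m) i hm, ih]
  let y : ℕ → Y := fun i => seq (i + 1) i
  have hy : ∀ m, Q m y := by
    intro m
    have := hseqQ m
    show τ m (fun i => s i) = _
    rw [show τ m (fun i => s i) = _ from this]
    congr 1
    funext i
    exact hstab i m i.2
  -- a section of `s`
  let t : X → ℕ := Function.surjInv hs
  have ht : ∀ x, s (t x) = x := Function.surjInv_eq hs
  let h : X → Y := fun x => y (t x)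
  have main : ∀ {n : ℕ} (a : Fin n → X) (M : ℕ), (∀ i, t (a i) < M) →
      ∃ β ∈ H, ∃ g ∈ G, (∀ i : Fin M, y i = β (f (g (s i)))) ∧
        τ n a = Quotient.mk'' (fun i => h (a i)) := by
    intro n a M hM
    obtain ⟨g, hg, h1, h2⟩ := TSorb_approx G H hτ (fun i : Fin M => s i) a
    have hy' : τ M (fun i : Fin M => s i) = (Quotient.mk'' (fun i : Fin M => y i) :
        MulAction.orbitRel.Quotient H (Fin M → Y)) := hy M
    have h3 : (Quotient.mk'' (fun i : Fin M => y i) :
        MulAction.orbitRel.Quotient H (Fin M → Y)) =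
        Quotient.mk'' (fun i : Fin M => f (g (s i))) := by
      rw [← hy', h1]
    obtain ⟨β, hβ, hβ'⟩ := orbQuot_eq H _ _ h3
    refine ⟨β, hβ, g, hg, hβ', ?_⟩
    rw [h2]
    refine (orbQuot_mk H _ _ β hβ (fun i => ?_)).symm
    have := hβ' ⟨t (a i), hM i⟩
    simp only [ht] at this
    exact this
  refine ⟨h, ?_, ?_⟩
  · rw [mem_closure_iff_cyl]
    intro A
    obtain ⟨β, hβ, g, hg, hβ', -⟩ := main (fun i : Fin 0 => s i) (A.sup t + 1)
      (fun i => i.elim0)
    refine ⟨β ∘ f ∘ g, ⟨β, hβ, g, hg, rfl⟩, fun x hx => ?_⟩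
    have := hβ' ⟨t x, Nat.lt_succ_of_le (Finset.le_sup hx)⟩
    simp only [ht] at this
    exact this.symm
  · intro n _ a α hα
    have e1 : τ n (fun i => α (a i)) = τ n a := by
      have := congrFun (congrFun (hfix ⟨α, hα⟩⁻¹) n) a
      rw [TS_smul_apply] at this
      simpa using this
    obtain ⟨-, -, -, -, -, h1⟩ := main a (Finset.univ.sup (fun i => t (a i)) + 1)
      (fun i => Nat.lt_succ_of_le (Finset.le_sup (f := fun i => t (a i)) (Finset.mem_univ i)))
    obtain ⟨-, -, -, -, -, h2⟩ := main (fun i => α (a i))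
      (Finset.univ.sup (fun i => t (α (a i))) + 1)
      (fun i => Nat.lt_succ_of_le (Finset.le_sup (f := fun i => t (α (a i))) (Finset.mem_univ i)))
    exact orbQuot_eq H _ _ (h2.symm.trans (e1.trans h1))

end Forward

theorem main {X : Type u} [Countable X] (G : Subgroup (Equiv.Perm X)) :
    ExtremelyAmenable.{u, v} G ↔ CanonisationProperty.{u, w} G := by
  constructor
  · intro hG Y H hH f
    exact canonisation_of_ea hG hH f
  · intro hG
    exact ea_of_ramsey (fun n k χ a F hF hFG => ramsey hG χ a F hF hFG)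

end Pool.Agent.H.MP_6d0d7d_lc
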